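import Pool.Agent.H63.TC.Stmts

/-! Project TC, module C2D: second order facts for holomorphic functions on `ℂ × ℂ`. -/

open Complex Metric Set Filter Topology

namespace Pool.Agent.H63.TC

lemma c2d_cont1 {g : ℂ × ℂ → ℂ} {U : Set (ℂ × ℂ)} (hU : IsOpen U) (hc : ContinuousOn g U)
    (hd : ∀ q ∈ U, DifferentiableAt ℂ (fun s => g (s, q.2)) q.1) :
    ContinuousOn (fun q : ℂ × ℂ => deriv (fun s => g (s, q.2)) q.1) U := by
  intro q hq
  apply ContinuousAt.continuousWithinAt
  obtain ⟨a, b⟩ := q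
  obtain ⟨R, hR, hball⟩ := Metric.isOpen_iff.1 hU _ hq
  have hmem : ∀ s ∈ ball a R, ∀ x ∈ ball b R, (s, x) ∈ U := by
    intro s hs x hx
    apply hball
    rw [mem_ball, Prod.dist_eq]
    exact max_lt hs hx
  have h1 : TendstoLocallyUniformlyOn (fun x s => g (s, x)) (fun s => g (s, b)) (𝓝 b)
      (ball a R) := by
    rw [Metric.tendstoLocallyUniformlyOn_iff]
    intro ε hε s hs
    have hct : ContinuousAt g (s, b) :=
      hc.continuousAt (hU.mem_nhds (hmem s hs b (mem_ball_self hR)))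
    obtain ⟨δ, hδ, h⟩ := Metric.continuousAt_iff.1 hct (ε / 2) (by positivity)
    refine ⟨ball s δ, mem_nhdsWithin_of_mem_nhds (ball_mem_nhds s hδ), ?_⟩
    filter_upwards [ball_mem_nhds b hδ] with x hx y hy
    have e1 : dist (g (y, x)) (g (s, b)) < ε / 2 := h (by rw [Prod.dist_eq]; exact max_lt hy hx)
    have e2 : dist (g (y, b)) (g (s, b)) < ε / 2 :=
      h (by rw [Prod.dist_eq]; exact max_lt hy (by simpa using hδ))
    calc dist (g (y, b)) (g (y, x)) ≤ dist (g (y, b)) (g (s, b)) + dist (g (y, x)) (g (s, b)) :=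
          dist_triangle_right _ _ _
      _ < ε := by linarith
  have h2 := h1.deriv (by
    filter_upwards [ball_mem_nhds b hR] with x hx
    intro s hs
    exact (hd (s, x) (hmem s hs x hx)).differentiableWithinAt) isOpen_ball
  have hd0 : DifferentiableOn ℂ (fun s => g (s, b)) (ball a R) := fun s hs =>
    (hd (s, b) (hmem s hs b (mem_ball_self hR))).differentiableWithinAt
  have hlim : Tendsto (fun q : ℂ × ℂ => (deriv ∘ fun x s => g (s, x)) q.2 q.1) (𝓝 (a, b))
      (𝓝 (deriv (fun s => g (s, b)) a)) := by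
    apply tendsto_comp_of_locally_uniform_limit
      (F := fun q : ℂ × ℂ => (deriv ∘ fun x s => g (s, x)) q.2)
    · exact (hd0.deriv isOpen_ball).continuousOn.continuousAt (ball_mem_nhds a hR)
    · exact (continuous_fst.tendsto (a, b))
    · intro u hu
      obtain ⟨t, ht, h⟩ := h2 u hu a (mem_ball_self hR)
      rw [(isOpen_ball.nhdsWithin_eq (mem_ball_self hR))] at ht
      exact ⟨t, ht, (continuous_snd.tendsto (a, b)).eventually h⟩
  exact hlim

lemma c2d_cont2 {g : ℂ × ℂ → ℂ} {U : Set (ℂ × ℂ)} (hU : IsOpen U) (hc : ContinuousOn g U)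
    (hd : ∀ q ∈ U, DifferentiableAt ℂ (fun s => g (q.1, s)) q.2) :
    ContinuousOn (fun q : ℂ × ℂ => deriv (fun s => g (q.1, s)) q.2) U := by
  have h := c2d_cont1 (g := fun q => g q.swap) (U := Prod.swap ⁻¹' U)
    (hU.preimage continuous_swap) (hc.comp continuous_swap.continuousOn (fun q hq => hq))
    (fun q hq => hd q.swap hq)
  have h3 := h.comp (s := U) (f := Prod.swap) continuous_swap.continuousOn
    (fun q hq => by simpa using hq)
  exact h3

lemma c2d_osgood {g : ℂ × ℂ → ℂ} {U : Set (ℂ × ℂ)} (hU : IsOpen U) (hc : ContinuousOn g U)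
    (hd1 : ∀ q ∈ U, DifferentiableAt ℂ (fun s => g (s, q.2)) q.1)
    (hd2 : ∀ q ∈ U, DifferentiableAt ℂ (fun s => g (q.1, s)) q.2) :
    ∀ q ∈ U, HasStrictFDerivAt g
      ((ContinuousLinearMap.toSpanSingleton ℂ (deriv (fun s => g (s, q.2)) q.1)).coprod
        (ContinuousLinearMap.toSpanSingleton ℂ (deriv (fun s => g (q.1, s)) q.2))) q := by
  intro q hq
  have hU' : U ∈ 𝓝 q := hU.mem_nhds hq
  have hT : Continuous (fun z : ℂ => ContinuousLinearMap.toSpanSingleton ℂ z) :=
    (ContinuousLinearMap.toSpanSingletonCLE (𝕜 := ℂ) (E := ℂ)).continuous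
  exact hasStrictFDerivAt_uncurry_coprod (f := fun s x => g (s, x))
    (f₁ := fun s x => ContinuousLinearMap.toSpanSingleton ℂ (deriv (fun s' => g (s', x)) s))
    (f₂ := fun s x => ContinuousLinearMap.toSpanSingleton ℂ (deriv (fun x' => g (s, x')) x))
    (by
      filter_upwards [hU'] with v hv
      exact (hd1 v hv).hasDerivAt.hasFDerivAt)
    (by
      filter_upwards [hU'] with v hv
      exact (hd2 v hv).hasDerivAt.hasFDerivAt)
    (hT.continuousAt.comp ((c2d_cont1 hU hc hd1).continuousAt hU'))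
    (hT.continuousAt.comp ((c2d_cont2 hU hc hd2).continuousAt hU'))

lemma c2d_slice1 {f : ℂ × ℂ → ℂ} {U : Set (ℂ × ℂ)} (hU : IsOpen U) (hf : DifferentiableOn ℂ f U)
    {q : ℂ × ℂ} (hq : q ∈ U) : DifferentiableAt ℂ (fun s => f (s, q.2)) q.1 :=
  DifferentiableAt.comp (g := f) q.1 (hf.differentiableAt (hU.mem_nhds hq)) (by fun_prop)

lemma c2d_slice2 {f : ℂ × ℂ → ℂ} {U : Set (ℂ × ℂ)} (hU : IsOpen U) (hf : DifferentiableOn ℂ f U)
    {q : ℂ × ℂ} (hq : q ∈ U) : DifferentiableAt ℂ (fun s => f (q.1, s)) q.2 :=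
  DifferentiableAt.comp (g := f) q.2 (hf.differentiableAt (hU.mem_nhds hq)) (by fun_prop)

lemma c2d_mixed {f : ℂ × ℂ → ℂ} {U : Set (ℂ × ℂ)} (hU : IsOpen U) (hf : DifferentiableOn ℂ f U)
    {a b : ℂ} (hq : (a, b) ∈ U) :
    DifferentiableAt ℂ (fun x => deriv (fun s => f (s, x)) a) b ∧
    HasDerivAt (fun s => deriv (fun x => f (s, x)) b)
      (deriv (fun x => deriv (fun s => f (s, x)) a) b) a := by
  obtain ⟨R, hR, hball⟩ := Metric.isOpen_iff.1 hU _ hq
  have hmem : ∀ s ∈ ball a R, ∀ x ∈ ball b R, (s, x) ∈ U := by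
    intro s hs x hx
    apply hball
    rw [mem_ball, Prod.dist_eq]
    exact max_lt hs hx
  have hc1 := c2d_cont1 hU hf.continuousOn (fun q hq => c2d_slice1 hU hf hq)
  have hnear : ∀ᶠ h in 𝓝[≠] (0 : ℂ), a + h ∈ ball a R := by
    apply eventually_nhdsWithin_of_eventually_nhds
    filter_upwards [ball_mem_nhds (0 : ℂ) hR] with h hh
    simpa using hh
  have h1 : TendstoLocallyUniformlyOn (fun h x => h⁻¹ * (f (a + h, x) - f (a, x)))
      (fun x => deriv (fun s => f (s, x)) a) (𝓝[≠] 0) (ball b R) := by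
    rw [Metric.tendstoLocallyUniformlyOn_iff]
    intro ε hε x₀ hx₀
    have hct := hc1.continuousAt (hU.mem_nhds (hmem a (mem_ball_self hR) x₀ hx₀))
    obtain ⟨δ, hδ, h⟩ := Metric.continuousAt_iff.1 hct (ε / 3) (by positivity)
    have hδ' : 0 < min δ R := lt_min hδ hR
    refine ⟨ball x₀ δ ∩ ball b R, ?_, ?_⟩
    · exact mem_nhdsWithin_of_mem_nhds
        (inter_mem (ball_mem_nhds x₀ hδ) (isOpen_ball.mem_nhds hx₀))
    · have hn : ∀ᶠ h in 𝓝[≠] (0 : ℂ), h ∈ ball (0 : ℂ) (min δ R) :=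
        eventually_nhdsWithin_of_eventually_nhds (ball_mem_nhds _ hδ')
      filter_upwards [hn, self_mem_nhdsWithin] with k hk hk0 x hx
      have hk0' : k ≠ 0 := hk0
      have hkn : ‖k‖ < min δ R := by simpa using hk
      set c := deriv (fun s => f (s, x₀)) a with hcdef
      have hder : ∀ s ∈ ball a (min δ R), HasDerivWithinAt (fun s => f (s, x) - c * s)
          (deriv (fun s => f (s, x)) s - c) (ball a (min δ R)) s := by
        intro s hs
        have hsR : s ∈ ball a R := ball_subset_ball (min_le_right _ _) hs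
        have e1 : HasDerivAt (fun s => f (s, x)) (deriv (fun s => f (s, x)) s) s :=
          (c2d_slice1 hU hf (hmem s hsR x hx.2)).hasDerivAt
        have e2 : HasDerivAt (fun s : ℂ => c * s) c s := by
          simpa using (hasDerivAt_id s).const_mul c
        exact (e1.sub e2).hasDerivWithinAt
      have hb : ∀ s ∈ ball a (min δ R), ‖deriv (fun s => f (s, x)) s - c‖ ≤ ε / 3 := by
        intro s hs
        have hsδ : s ∈ ball a δ := ball_subset_ball (min_le_left _ _) hs
        have e := @h (s, x) (by rw [Prod.dist_eq]; exact max_lt hsδ hx.1)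
        rw [dist_eq_norm] at e
        exact e.le
      have hmv := Convex.norm_image_sub_le_of_norm_hasDerivWithin_le hder hb (convex_ball _ _)
        (mem_ball_self hδ') (y := a + k) (by simpa using hkn)
      have e3 : dist (deriv (fun s => f (s, x)) a) c < ε / 3 := @h (a, x) (by
        rw [Prod.dist_eq]; exact max_lt (by simpa using hδ) hx.1)
      have e4 : ‖k⁻¹ * (f (a + k, x) - f (a, x)) - c‖ ≤ ε / 3 := by
        have e5 : k⁻¹ * (f (a + k, x) - f (a, x)) - c =
            k⁻¹ * (f (a + k, x) - c * (a + k) - (f (a, x) - c * a)) := by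
          field_simp
          ring
        rw [e5, norm_mul, norm_inv]
        have e6 : ‖f (a + k, x) - c * (a + k) - (f (a, x) - c * a)‖ ≤ ε / 3 * ‖k‖ := by
          simpa using hmv
        have hkp : 0 < ‖k‖ := norm_pos_iff.2 hk0'
        calc ‖k‖⁻¹ * ‖f (a + k, x) - c * (a + k) - (f (a, x) - c * a)‖
            ≤ ‖k‖⁻¹ * (ε / 3 * ‖k‖) := by gcongr
          _ = ε / 3 := by field_simp
      calc dist (deriv (fun s => f (s, x)) a) (k⁻¹ * (f (a + k, x) - f (a, x)))
          ≤ dist (deriv (fun s => f (s, x)) a) c + dist (k⁻¹ * (f (a + k, x) - f (a, x))) c :=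
            dist_triangle_right _ _ _
        _ < ε := by
            rw [dist_eq_norm (k⁻¹ * _)]
            linarith
  have hdx : ∀ s ∈ ball a R, DifferentiableOn ℂ (fun x => f (s, x)) (ball b R) :=
    fun s hs x hx => (c2d_slice2 hU hf (hmem s hs x hx)).differentiableWithinAt
  have hF : ∀ᶠ h in 𝓝[≠] (0 : ℂ),
      DifferentiableOn ℂ (fun x => h⁻¹ * (f (a + h, x) - f (a, x))) (ball b R) := by
    filter_upwards [hnear] with h hh
    exact ((hdx _ hh).sub (hdx a (mem_ball_self hR))).const_mul _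
  refine ⟨(h1.differentiableOn hF isOpen_ball).differentiableAt (ball_mem_nhds b hR), ?_⟩
  rw [hasDerivAt_iff_tendsto_slope_zero]
  have h2 := (h1.deriv hF isOpen_ball).tendsto_at (mem_ball_self hR)
  refine h2.congr' ?_
  filter_upwards [hnear] with h hh
  have e1 : HasDerivAt (fun x => f (a + h, x)) (deriv (fun x => f (a + h, x)) b) b :=
    (c2d_slice2 hU hf (hmem _ hh b (mem_ball_self hR))).hasDerivAt
  have e2 : HasDerivAt (fun x => f (a, x)) (deriv (fun x => f (a, x)) b) b :=
    (c2d_slice2 hU hf hq).hasDerivAt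
  simpa using ((e1.sub e2).const_mul h⁻¹).deriv

/-- C2D -/
theorem c2d : C2dStmt := by
  intro f U hU hf
  have hs1 : ∀ q ∈ U, DifferentiableAt ℂ (fun s => f (s, q.2)) q.1 :=
    fun q hq => c2d_slice1 hU hf hq
  have hs2 : ∀ q ∈ U, DifferentiableAt ℂ (fun s => f (q.1, s)) q.2 :=
    fun q hq => c2d_slice2 hU hf hq
  have hc1 := c2d_cont1 hU hf.continuousOn hs1
  have hc2 := c2d_cont2 hU hf.continuousOn hs2
  have hO := c2d_osgood hU hf.continuousOn hs1 hs2
  refine ⟨?_, ?_, ?_, ?_, ?_⟩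
  · intro q hq
    refine (c2d_osgood hU hc1 ?_ ?_ q hq).hasFDerivAt.differentiableAt.differentiableWithinAt
    · intro p hp
      have hop : IsOpen ((fun s : ℂ => (s, p.2)) ⁻¹' U) := hU.preimage (by fun_prop)
      have : DifferentiableOn ℂ (fun s => f (s, p.2)) ((fun s : ℂ => (s, p.2)) ⁻¹' U) :=
        fun s hs => (hs1 (s, p.2) hs).differentiableWithinAt
      exact (this.deriv hop).differentiableAt (hop.mem_nhds hp)
    · intro p hp
      exact (c2d_mixed hU hf (a := p.1) (b := p.2) hp).1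
  · intro q hq
    refine (c2d_osgood hU hc2 ?_ ?_ q hq).hasFDerivAt.differentiableAt.differentiableWithinAt
    · intro p hp
      exact (c2d_mixed hU hf (a := p.1) (b := p.2) hp).2.differentiableAt
    · intro p hp
      have hop : IsOpen ((fun s : ℂ => (p.1, s)) ⁻¹' U) := hU.preimage (by fun_prop)
      have : DifferentiableOn ℂ (fun s => f (p.1, s)) ((fun s : ℂ => (p.1, s)) ⁻¹' U) :=
        fun s hs => (hs2 (p.1, s) hs).differentiableWithinAt
      exact (this.deriv hop).differentiableAt (hop.mem_nhds hp)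
  · intro q hq
    exact (c2d_mixed hU hf (a := q.1) (b := q.2) hq).2.deriv
  · intro q hq
    have h := hO q hq
    rw [h.hasFDerivAt.fderiv]
    exact h
  · intro q hq v
    rw [(hO q hq).hasFDerivAt.fderiv]
    simp [mul_comm]

end Pool.Agent.H63.TC
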