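import Pool.Agent.H85.TC.Mod

/-! Project TC, module REC: thick points can be moved into a compact set. -/

open Complex Metric Set Filter Topology

namespace Pool.Agent.H63.TC

/-- the compact set of REC -/
def recK (R ε δ : ℝ) : Set (ℂ × ℂ) :=
  {q | ‖q.1‖ ≤ R ∧ ‖q.2‖ ≤ R + 1 ∧ ε ≤ q.1.im ∧ ∀ m n : ℤ, δ ≤ ‖q.2 - m * q.1 - n‖ ^ 2}

lemma rec_compact (R ε δ : ℝ) : IsCompact (recK R ε δ) := by
  apply Metric.isCompact_of_isClosed_isBounded
  · have : recK R ε δ = {q : ℂ × ℂ | ‖q.1‖ ≤ R} ∩ ({q : ℂ × ℂ | ‖q.2‖ ≤ R + 1} ∩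
        ({q : ℂ × ℂ | ε ≤ q.1.im} ∩ ⋂ m : ℤ, ⋂ n : ℤ, {q : ℂ × ℂ | δ ≤ ‖q.2 - m * q.1 - n‖ ^ 2})) := by
      ext q
      simp [recK]
    rw [this]
    refine (isClosed_le (by fun_prop) (by fun_prop)).inter
      ((isClosed_le (by fun_prop) (by fun_prop)).inter ((isClosed_le (by fun_prop) ?_).inter ?_))
    · exact Complex.continuous_im.comp continuous_fst
    · exact isClosed_iInter fun m => isClosed_iInter fun n =>
        isClosed_le (by fun_prop) (by fun_prop)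
  · apply (Metric.isBounded_closedBall (x := (0 : ℂ × ℂ)) (r := max R (R + 1))).subset
    intro q hq
    rw [mem_closedBall_zero_iff, Prod.norm_def]
    exact max_le_max hq.1 hq.2.1

lemma rec_subset {R ε δ : ℝ} (hε : 0 < ε) (hδ : 0 < δ) : recK R ε δ ⊆ YY := by
  intro q hq
  refine ⟨lt_of_lt_of_le hε hq.2.2.1, ?_⟩
  rintro ⟨m, n, h⟩
  have := hq.2.2.2 m n
  rw [h] at this
  simp at this
  linarith

/-- REC -/
theorem rec : RecStmt := by
  intro δ hδ
  set E : ℝ := 1 / δ + 2 with hE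
  have hδ1 : 0 < 1 / δ := by positivity
  have hE2 : 2 < E := by linarith
  refine ⟨recK (2 * E) (1 / (2 * E ^ 2)) (δ * (1 / (2 * E ^ 2))), rec_compact _ _ _,
    rec_subset (by positivity) (by positivity), ?_⟩
  rintro ⟨τ, u⟩ hτ h1 h2
  simp only at hτ h1 h2
  obtain ⟨a, b, c, d, a', b', c', d', hG, hdet', ha', hb', hc', hd', hre, him⟩ := mod τ hτ
  have hdet := hG.1
  set τ1 : ℂ := (a * τ + b) / (c * τ + d) with hτ1
  have hD0 := denom_ne_zero hdet hτ
  have hτ1p : 0 < τ1.im := act_im_pos hdet hτ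
  have hτ1im : τ1.im = τ.im / ‖(c * τ + d : ℂ)‖ ^ 2 := act_im hdet hτ
  have hD1 := denom_ne_zero hdet' hτ1p
  set w : ℂ := (a' * τ1 + b') / (c' * τ1 + d') with hw
  have hwim : w.im = τ1.im / ‖(c' * τ1 + d' : ℂ)‖ ^ 2 := act_im hdet' hτ1p
  have hden : (c' * τ1 + d') * (a' - c' * w) = 1 := act_denom hdet' hτ1p
  have hsq3 : (1 : ℝ) / 2 ≤ Real.sqrt 3 / 2 := by
    have : (1 : ℝ) ≤ Real.sqrt 3 := by
      rw [show (1 : ℝ) = Real.sqrt 1 by simp]
      exact Real.sqrt_le_sqrt (by norm_num)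
    linarith
  have hwim2 : 1 / 2 ≤ w.im := le_trans hsq3 him
  -- upper bound for `Im w`
  have hprod : (c' * τ1 + d') * (c * τ + d) = ((c' * a + d' * c : ℤ) : ℂ) * τ +
      ((c' * b + d' * d : ℤ) : ℂ) := by
    have : τ1 * (c * τ + d) = a * τ + b := by rw [hτ1, div_mul_cancel₀ _ hD0]
    push_cast
    linear_combination c' * this
  have hrs : ¬ (c' * a + d' * c = 0 ∧ c' * b + d' * d = 0) := by
    rintro ⟨e1, e2⟩
    rw [e1, e2] at hprod
    simp only [Int.cast_zero, zero_mul, add_zero] at hprod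
    exact (mul_ne_zero hD1 hD0) hprod
  have hwup : w.im ≤ 1 / δ := by
    have h3 := h1 _ _ hrs
    rw [← hprod, norm_mul, mul_pow] at h3
    have h4 : w.im * (‖(c' * τ1 + d' : ℂ)‖ ^ 2 * ‖(c * τ + d : ℂ)‖ ^ 2) = τ.im := by
      rw [hwim, hτ1im]
      have := norm_pos_iff.2 hD1
      have := norm_pos_iff.2 hD0
      field_simp
    have h5 : δ * w.im * τ.im ≤ τ.im := by
      calc δ * w.im * τ.im = w.im * (δ * τ.im) := by ring
        _ ≤ w.im * (‖(c' * τ1 + d' : ℂ)‖ ^ 2 * ‖(c * τ + d : ℂ)‖ ^ 2) := by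
            gcongr
        _ = τ.im := h4
    rw [le_div_iff₀ hδ]
    have h6 : δ * w.im * τ.im ≤ 1 * τ.im := by linarith
    have := le_of_mul_le_mul_right h6 hτ
    linarith
  have hwn : ‖w‖ + 1 ≤ E := by
    have := Complex.norm_le_abs_re_add_abs_im w
    rw [abs_of_pos (by linarith : 0 < w.im)] at this
    rw [hE]
    linarith
  -- bounds for `D = |a' - c' w|`
  have hcast : ∀ z : ℤ, |z| ≤ 1 → ‖(z : ℂ)‖ ≤ 1 := by
    intro z hz
    rw [Complex.norm_intCast]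
    exact_mod_cast hz
  have hDup : ‖(a' : ℂ) - c' * w‖ ≤ E := by
    calc ‖(a' : ℂ) - c' * w‖ ≤ ‖(a' : ℂ)‖ + ‖(c' : ℂ) * w‖ := norm_sub_le _ _
      _ ≤ 1 + 1 * ‖w‖ := by
          rw [norm_mul]
          gcongr
          · exact hcast _ ha'
          · exact hcast _ hc'
      _ ≤ E := by linarith
  have hDlow : 1 / 2 ≤ ‖(a' : ℂ) - c' * w‖ := by
    by_cases hc0 : c' = 0
    · subst hc0
      have hne : a' ≠ 0 := by
        rintro rfl
        simp at hdet'
      have h1' : (1 : ℝ) ≤ |(a' : ℝ)| := by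
        exact_mod_cast Int.one_le_abs hne
      simp only [Int.cast_zero, zero_mul, sub_zero, Complex.norm_intCast]
      linarith
    · have h1' : (1 : ℝ) ≤ |(c' : ℝ)| := by
        exact_mod_cast Int.one_le_abs hc0
      have h2' : |((a' : ℂ) - c' * w).im| ≤ ‖(a' : ℂ) - c' * w‖ := Complex.abs_im_le_norm _
      have h3' : ((a' : ℂ) - c' * w).im = - (c' * w.im) := by simp
      rw [h3', abs_neg, abs_mul, abs_of_pos (by linarith : 0 < w.im)] at h2'
      nlinarith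
  have hτ1eq : τ1 * (a' - c' * w) = d' * w - b' := by
    have hdc : (a' : ℂ) * d' - b' * c' = 1 := by exact_mod_cast hdet'
    have hw' : w * (c' * τ1 + d') = a' * τ1 + b' := by rw [hw, div_mul_cancel₀ _ hD1]
    linear_combination -hw'
  have hτ1n : ‖τ1‖ ≤ 2 * E := by
    have h3 : ‖τ1‖ * ‖(a' : ℂ) - c' * w‖ ≤ E := by
      rw [← norm_mul, hτ1eq]
      calc ‖(d' : ℂ) * w - b'‖ ≤ ‖(d' : ℂ) * w‖ + ‖(b' : ℂ)‖ := norm_sub_le _ _
        _ ≤ 1 * ‖w‖ + 1 := by
            rw [norm_mul]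
            gcongr
            · exact hcast _ hd'
            · exact hcast _ hb'
        _ ≤ E := by linarith
    have : ‖τ1‖ * (1 / 2) ≤ ‖τ1‖ * ‖(a' : ℂ) - c' * w‖ := by gcongr
    linarith
  have hτ1low : 1 / (2 * E ^ 2) ≤ τ1.im := by
    have h3 : τ1.im * ‖(a' : ℂ) - c' * w‖ ^ 2 = w.im := by
      have h4 : ‖(c' * τ1 + d' : ℂ)‖ * ‖(a' : ℂ) - c' * w‖ = 1 := by
        rw [← norm_mul, hden, norm_one]
      have h5 := norm_pos_iff.2 hD1
      rw [hwim, eq_div_iff (by positivity)]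
      calc τ1.im * ‖(a' : ℂ) - c' * w‖ ^ 2 * ‖(c' * τ1 + d' : ℂ)‖ ^ 2
          = τ1.im * (‖(c' * τ1 + d' : ℂ)‖ * ‖(a' : ℂ) - c' * w‖) ^ 2 := by ring
        _ = τ1.im := by rw [h4]; ring
    have h4 : 1 / 2 ≤ τ1.im * E ^ 2 := by
      calc 1 / 2 ≤ w.im := hwim2
        _ = τ1.im * ‖(a' : ℂ) - c' * w‖ ^ 2 := h3.symm
        _ ≤ τ1.im * E ^ 2 := by gcongr
    rw [div_le_iff₀ (by positivity)]
    linarith
  -- the second coordinate
  set u' : ℂ := u / (c * τ + d) with hu'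
  have hlat : ∀ M N : ℤ, δ * (1 / (2 * E ^ 2)) ≤ ‖u' - M * τ1 - N‖ ^ 2 := by
    intro M N
    have h3 := h2 (M * a + N * c) (M * b + N * d)
    have h4 : (u' - M * τ1 - N) * (c * τ + d) = u - ((M * a + N * c : ℤ) : ℂ) * τ -
        ((M * b + N * d : ℤ) : ℂ) := by
      have e1 : τ1 * (c * τ + d) = a * τ + b := by rw [hτ1, div_mul_cancel₀ _ hD0]
      have e2 : u' * (c * τ + d) = u := by rw [hu', div_mul_cancel₀ _ hD0]
      push_cast
      linear_combination e2 - M * e1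
    rw [← h4, norm_mul, mul_pow] at h3
    have h5 := norm_pos_iff.2 hD0
    have h6 : δ * τ1.im ≤ ‖u' - M * τ1 - N‖ ^ 2 := by
      rw [hτ1im, ← mul_div_assoc, div_le_iff₀ (by positivity)]
      exact h3
    calc δ * (1 / (2 * E ^ 2)) ≤ δ * τ1.im := by gcongr
      _ ≤ _ := h6
  have hαβ := ca_cb (q := (τ1, u')) hτ1p
  set α := ca (τ1, u')
  set β := cb (τ1, u')
  simp only at hαβ
  refine ⟨a, b, c, d, -round (α / 2), -round (β / 2), hG, ?_⟩
  have hred : ∀ x : ℝ, |x - 2 * round (x / 2)| ≤ 1 := by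
    intro x
    have h := abs_sub_round (x / 2)
    rw [show x - 2 * round (x / 2) = 2 * (x / 2 - round (x / 2)) by ring, abs_mul, abs_two]
    linarith
  have hact : act a b c d (-round (α / 2)) (-round (β / 2)) (τ, u) =
      (τ1, u' - ((2 * round (α / 2) : ℤ) : ℂ) * τ1 - ((2 * round (β / 2) : ℤ) : ℂ)) := by
    unfold act
    simp only [← hτ1, ← hu']
    congr 1
    push_cast
    ring
  rw [hact]
  refine ⟨hτ1n, ?_, hτ1low, ?_⟩
  · have e : u' - ((2 * round (α / 2) : ℤ) : ℂ) * τ1 - ((2 * round (β / 2) : ℤ) : ℂ) =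
        ((α - 2 * round (α / 2) : ℝ) : ℂ) * τ1 + ((β - 2 * round (β / 2) : ℝ) : ℂ) := by
      rw [← hαβ]
      push_cast
      ring
    simp only [e]
    calc ‖((α - 2 * round (α / 2) : ℝ) : ℂ) * τ1 + ((β - 2 * round (β / 2) : ℝ) : ℂ)‖
        ≤ ‖((α - 2 * round (α / 2) : ℝ) : ℂ)‖ * ‖τ1‖ + ‖((β - 2 * round (β / 2) : ℝ) : ℂ)‖ := by
          rw [← norm_mul]
          exact norm_add_le _ _
      _ ≤ 1 * (2 * E) + 1 := by
          rw [Complex.norm_real, Complex.norm_real, Real.norm_eq_abs, Real.norm_eq_abs]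
          gcongr
          · exact hred α
          · exact hred β
      _ = 2 * E + 1 := by ring
  · intro M N
    have h3 := hlat (2 * round (α / 2) + M) (2 * round (β / 2) + N)
    convert h3 using 3
    simp only
    push_cast
    ring

end Pool.Agent.H63.TC
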