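import Pool.Agent.H63.TC.Stmts

/-! Project TC, module MOD: reduction by `Γ(2)`. -/

open Complex Metric Set Filter Topology
open scoped UpperHalfPlane MatrixGroups

namespace Pool.Agent.H63.TC

set_option linter.unusedSimpArgs false

lemma mod_fd (τ : ℂ) (h : 0 < τ.im) : ∃ p q r s : ℤ, p * s - q * r = 1 ∧
    |((p * τ + q) / (r * τ + s) : ℂ).re| ≤ 1 / 2 ∧
    Real.sqrt 3 / 2 ≤ ((p * τ + q) / (r * τ + s) : ℂ).im := by
  obtain ⟨g, hg⟩ := ModularGroup.exists_smul_mem_fd (⟨τ, h⟩ : ℍ)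
  have h1 : ((g • (⟨τ, h⟩ : ℍ) : ℍ) : ℂ) = ((g 0 0 : ℤ) * τ + (g 0 1 : ℤ)) /
      ((g 1 0 : ℤ) * τ + (g 1 1 : ℤ)) := by
    rw [UpperHalfPlane.specialLinearGroup_apply]
    simp
  refine ⟨g 0 0, g 0 1, g 1 0, g 1 1, ?_, ?_, ?_⟩
  · have := g.2
    rw [Matrix.det_fin_two] at this
    exact this
  · rw [← h1]
    exact hg.2
  · rw [← h1]
    have h3 := ModularGroup.three_le_four_mul_im_sq_of_mem_fd hg
    have h4 : 0 < (g • (⟨τ, h⟩ : ℍ)).im := UpperHalfPlane.im_pos _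
    have h5 : ((g • (⟨τ, h⟩ : ℍ) : ℍ) : ℂ).im = (g • (⟨τ, h⟩ : ℍ)).im := rfl
    rw [h5, div_le_iff₀ (by norm_num)]
    apply Real.sqrt_le_iff.2
    constructor
    · positivity
    · nlinarith

lemma mod_parity (p q r s : ℤ) (h : p * s - q * r = 1) :
    ∃ a' b' c' d' : ℤ, a' * d' - b' * c' = 1 ∧ |a'| ≤ 1 ∧ |b'| ≤ 1 ∧ |c'| ≤ 1 ∧ |d'| ≤ 1 ∧
      Odd (d' * p - b' * r) ∧ Even (d' * q - b' * s) ∧ Even (-c' * p + a' * r) ∧
      Odd (-c' * q + a' * s) := by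
  have h' : ¬ Even (p * s - q * r) := by rw [h]; decide
  simp only [← Int.not_even_iff_odd]
  by_cases hp : Even p <;> by_cases hq : Even q <;> by_cases hr : Even r <;>
    by_cases hs : Even s
  all_goals first
    | (exfalso; revert h'; simp [hp, hq, hr, hs, Int.even_sub, Int.even_mul]; done)
    | (refine ⟨1, 0, 0, 1, ?_⟩
       simp [hp, hq, hr, hs, Int.even_sub, Int.even_add, Int.even_mul]; done)
    | (refine ⟨0, -1, 1, 0, ?_⟩
       simp [hp, hq, hr, hs, Int.even_sub, Int.even_add, Int.even_mul]; done)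
    | (refine ⟨1, 1, 0, 1, ?_⟩
       simp [hp, hq, hr, hs, Int.even_sub, Int.even_add, Int.even_mul]; done)
    | (refine ⟨1, 0, 1, 1, ?_⟩
       simp [hp, hq, hr, hs, Int.even_sub, Int.even_add, Int.even_mul]; done)
    | (refine ⟨0, -1, 1, 1, ?_⟩
       simp [hp, hq, hr, hs, Int.even_sub, Int.even_add, Int.even_mul]; done)
    | (refine ⟨1, 1, -1, 0, ?_⟩
       simp [hp, hq, hr, hs, Int.even_sub, Int.even_add, Int.even_mul]; done)

/-- MOD -/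
theorem mod : ModStmt := by
  intro τ hτ
  obtain ⟨p, q, r, s, hdet, hre, him⟩ := mod_fd τ hτ
  obtain ⟨a', b', c', d', hdet', ha, hb, hc, hd, h1, h2, h3, h4⟩ := mod_parity p q r s hdet
  have hG : (d' * p - b' * r) * (-c' * q + a' * s) - (d' * q - b' * s) * (-c' * p + a' * r) = 1 := by
    linear_combination (a' * d' - b' * c') * hdet + hdet'
  refine ⟨d' * p - b' * r, d' * q - b' * s, -c' * p + a' * r, -c' * q + a' * s,
    a', b', c', d', ⟨hG, h1, h2, h3, h4⟩, hdet', ha, hb, hc, hd, ?_⟩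
  have hden := denom_ne_zero hG hτ
  have hden2 := denom_ne_zero hdet hτ
  have hD : (a' : ℂ) * d' - b' * c' = 1 := by exact_mod_cast hdet'
  have key : ((a' * ((((d' * p - b' * r : ℤ) : ℂ) * τ + ((d' * q - b' * s : ℤ) : ℂ)) /
      (((-c' * p + a' * r : ℤ) : ℂ) * τ + ((-c' * q + a' * s : ℤ) : ℂ))) + b') /
      (c' * ((((d' * p - b' * r : ℤ) : ℂ) * τ + ((d' * q - b' * s : ℤ) : ℂ)) /
      (((-c' * p + a' * r : ℤ) : ℂ) * τ + ((-c' * q + a' * s : ℤ) : ℂ))) + d') : ℂ) =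
      (p * τ + q) / (r * τ + s) := by
    have e1 : (a' * ((((d' * p - b' * r : ℤ) : ℂ) * τ + ((d' * q - b' * s : ℤ) : ℂ)) /
      (((-c' * p + a' * r : ℤ) : ℂ) * τ + ((-c' * q + a' * s : ℤ) : ℂ))) + b') =
        (p * τ + q) / (((-c' * p + a' * r : ℤ) : ℂ) * τ + ((-c' * q + a' * s : ℤ) : ℂ)) := by
      rw [eq_div_iff hden]
      have : (a' * ((((d' * p - b' * r : ℤ) : ℂ) * τ + ((d' * q - b' * s : ℤ) : ℂ)) /
        (((-c' * p + a' * r : ℤ) : ℂ) * τ + ((-c' * q + a' * s : ℤ) : ℂ))) + b') *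
        (((-c' * p + a' * r : ℤ) : ℂ) * τ + ((-c' * q + a' * s : ℤ) : ℂ)) =
        a' * (((d' * p - b' * r : ℤ) : ℂ) * τ + ((d' * q - b' * s : ℤ) : ℂ)) +
          b' * (((-c' * p + a' * r : ℤ) : ℂ) * τ + ((-c' * q + a' * s : ℤ) : ℂ)) := by
        rw [add_mul, mul_assoc, div_mul_cancel₀ _ hden]
      rw [this]
      push_cast
      linear_combination (p * τ + q) * hD
    have e2 : (c' * ((((d' * p - b' * r : ℤ) : ℂ) * τ + ((d' * q - b' * s : ℤ) : ℂ)) /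
      (((-c' * p + a' * r : ℤ) : ℂ) * τ + ((-c' * q + a' * s : ℤ) : ℂ))) + d') =
        (r * τ + s) / (((-c' * p + a' * r : ℤ) : ℂ) * τ + ((-c' * q + a' * s : ℤ) : ℂ)) := by
      rw [eq_div_iff hden]
      have : (c' * ((((d' * p - b' * r : ℤ) : ℂ) * τ + ((d' * q - b' * s : ℤ) : ℂ)) /
        (((-c' * p + a' * r : ℤ) : ℂ) * τ + ((-c' * q + a' * s : ℤ) : ℂ))) + d') *
        (((-c' * p + a' * r : ℤ) : ℂ) * τ + ((-c' * q + a' * s : ℤ) : ℂ)) =
        c' * (((d' * p - b' * r : ℤ) : ℂ) * τ + ((d' * q - b' * s : ℤ) : ℂ)) +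
          d' * (((-c' * p + a' * r : ℤ) : ℂ) * τ + ((-c' * q + a' * s : ℤ) : ℂ)) := by
        rw [add_mul, mul_assoc, div_mul_cancel₀ _ hden]
      rw [this]
      push_cast
      linear_combination (r * τ + s) * hD
    rw [e1, e2, div_div_div_cancel_right₀ hden]
  rw [key]
  exact ⟨hre, him⟩

end Pool.Agent.H63.TC
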